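import Mathlib

set_option autoImplicit false

/-! Affine maps between finite unions of cycles of the maps `x / 2`, `(q x + d) / 2`. -/

namespace Pool.Agent.U394.AR

open Finset

/-- The extremal argument. `τ` and `τ'` are permutations of `S`, which in the coordinate `u` are given by
`u / 2`, `(q u + 1) / 2` and by the conjugates of these two maps under `a u + b`. -/
theorem extremal (S : Finset ℤ) (ev : ℤ → Prop) [DecidablePred ev] (u : ℤ → ℝ) (τ τ' : ℤ → ℤ)
    (q a b : ℝ) (hq : 2 < q) (h1 : S.image τ = S) (h1' : S.image τ' = S)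
    (he : ∀ x ∈ S, ev x → u (τ x) = u x / 2)
    (ho : ∀ x ∈ S, ¬ ev x → u (τ x) = (q * u x + 1) / 2)
    (he' : ∀ x ∈ S, ev x → u (τ' x) = u x / 2 - b / (2 * a))
    (ho' : ∀ x ∈ S, ¬ ev x → u (τ' x) = (q * u x + 1) / 2 + (((q - 2) * b + 1) / (2 * a) - 1 / 2))
    (h0 : ∀ x ∈ S, u x ≠ 0) (h0' : ∀ x ∈ S, a * u x + b ≠ 0) (ha : a ≠ 0)
    (hE : ∃ x ∈ S, ev x) (hO : ∃ x ∈ S, ¬ ev x) : a = 1 ∧ b = 0 := by
  set s : ℝ := b / (2 * a) with hs
  set m : ℝ := ((q - 2) * b + 1) / (2 * a) - 1 / 2 with hm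
  have hne : S.Nonempty := by
    obtain ⟨x, hx, _⟩ := hE
    exact ⟨x, hx⟩
  have hsum : ∑ x ∈ S, u (τ x) = ∑ x ∈ S, u x := by
    have hinj : Set.InjOn τ S := card_image_iff.1 (by rw [h1])
    have h := sum_image (f := u) hinj
    rw [← h, h1]
  have hsum' : ∑ x ∈ S, u (τ' x) = ∑ x ∈ S, u x := by
    have hinj : Set.InjOn τ' S := card_image_iff.1 (by rw [h1'])
    have h := sum_image (f := u) hinj
    rw [← h, h1']
  set e : ℝ := ((S.filter ev).card : ℝ) with hee
  set o : ℝ := ((S.filter fun x => ¬ ev x).card : ℝ) with hoo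
  have hepos : 0 < e := by
    rw [hee]
    obtain ⟨x, hx, hx'⟩ := hE
    exact_mod_cast card_pos.2 ⟨x, mem_filter.2 ⟨hx, hx'⟩⟩
  have hopos : 0 < o := by
    rw [hoo]
    obtain ⟨x, hx, hx'⟩ := hO
    exact_mod_cast card_pos.2 ⟨x, mem_filter.2 ⟨hx, hx'⟩⟩
  have hbal : m * o = s * e := by
    have h2 : ∀ x ∈ S, u (τ' x) = u (τ x) + (if ev x then -s else m) := by
      intro x hx
      split_ifs with h
      · rw [he' x hx h, he x hx h]; ring
      · rw [ho' x hx h, ho x hx h]
    have h3 := sum_congr rfl h2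
    rw [hsum', sum_add_distrib, hsum, sum_ite, sum_const, sum_const, nsmul_eq_mul,
      nsmul_eq_mul] at h3
    linarith
  have hmemτ : ∀ x ∈ S, τ x ∈ S := fun x hx => by
    have := mem_image_of_mem τ hx
    rwa [h1] at this
  have hmemτ' : ∀ x ∈ S, τ' x ∈ S := fun x hx => by
    have := mem_image_of_mem τ' hx
    rwa [h1'] at this
  have hsur : ∀ y ∈ S, ∃ x ∈ S, τ x = y := fun y hy => by
    rw [← h1] at hy
    exact mem_image.1 hy
  have hsur' : ∀ y ∈ S, ∃ x ∈ S, τ' x = y := fun y hy => by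
    rw [← h1'] at hy
    exact mem_image.1 hy
  obtain ⟨w, hw, hwmax⟩ := exists_max_image S u hne
  obtain ⟨z, hz, hzmin⟩ := exists_min_image S u hne
  have hcrit : ∀ x ∈ S, u x ≠ -(2 * s) := by
    intro x hx h
    apply h0' x hx
    rw [h, hs]
    field_simp
    ring
  rcases lt_trichotomy s 0 with hs0 | hs0 | hs0
  · exfalso
    have hm0 : m < 0 := by
      by_contra h
      have h2 : 0 ≤ m * o := mul_nonneg (not_lt.1 h) hopos.le
      have h3 : s * e < 0 := mul_neg_of_neg_of_pos hs0 hepos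
      linarith
    have hzpos : 0 < u z := by
      obtain ⟨x, hx, hxz⟩ := hsur z hz
      have hxe : ev x := by
        by_contra h
        have h2 := hzmin _ (hmemτ' x hx)
        have h3 := ho x hx h
        rw [ho' x hx h, ← h3, hxz] at h2
        linarith
      have h2 := he x hx hxe
      rw [hxz] at h2
      have h3 := hzmin x hx
      have h4 : 0 ≤ u z := by linarith
      exact lt_of_le_of_ne h4 (h0 z hz).symm
    have hwpos : 0 < u w := lt_of_lt_of_le hzpos (hwmax z hz)
    have hw1 : u w ≤ -(2 * s) := by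
      obtain ⟨x, hx, hxw⟩ := hsur' w hw
      have hxe : ev x := by
        by_contra h
        have h2 := hwmax _ (hmemτ x hx)
        have h3 := ho' x hx h
        rw [hxw] at h3
        rw [ho x hx h] at h2
        linarith
      have h2 := he' x hx hxe
      rw [hxw] at h2
      have h3 := hwmax x hx
      linarith
    have hwe : ev w := by
      by_contra h
      have h2 := hwmax _ (hmemτ w hw)
      rw [ho w hw h] at h2
      nlinarith
    have hw2 : -(2 * s) ≤ u w := by
      have h2 := hwmax _ (hmemτ' w hw)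
      rw [he' w hw hwe] at h2
      linarith
    exact hcrit w hw (le_antisymm hw1 hw2)
  · have hb : b = 0 := by
      rw [hs, div_eq_zero_iff] at hs0
      rcases hs0 with h | h
      · exact h
      · exact absurd h (mul_ne_zero two_ne_zero ha)
    refine ⟨?_, hb⟩
    rw [hs0, zero_mul] at hbal
    rcases mul_eq_zero.1 hbal with h | h
    · rw [hm, hb] at h
      field_simp at h
      linarith
    · exact absurd h hopos.ne'
  · exfalso
    have hm0 : 0 < m := by
      by_contra h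
      have h2 : m * o ≤ 0 := mul_nonpos_of_nonpos_of_nonneg (not_lt.1 h) hopos.le
      have h3 : 0 < s * e := mul_pos hs0 hepos
      linarith
    have hwneg : u w < 0 := by
      obtain ⟨x, hx, hxw⟩ := hsur w hw
      have hxe : ev x := by
        by_contra h
        have h2 := hwmax _ (hmemτ' x hx)
        have h3 := ho x hx h
        rw [ho' x hx h, ← h3, hxw] at h2
        linarith
      have h2 := he x hx hxe
      rw [hxw] at h2
      have h3 := hwmax x hx
      have h4 : u w ≤ 0 := by linarith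
      exact lt_of_le_of_ne h4 (h0 w hw)
    have hneg : ∀ x ∈ S, u x < 0 := fun x hx => lt_of_le_of_lt (hwmax x hx) hwneg
    have hz1 : -(2 * s) ≤ u z := by
      obtain ⟨x, hx, hxz⟩ := hsur' z hz
      have hxe : ev x := by
        by_contra h
        have h2 := hzmin _ (hmemτ x hx)
        have h3 := ho' x hx h
        rw [hxz] at h3
        rw [ho x hx h] at h2
        linarith
      have h2 := he' x hx hxe
      rw [hxz] at h2
      have h3 := hzmin x hx
      linarith
    have hze : ev z := by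
      by_contra h
      have h2 := hzmin _ (hmemτ z hz)
      rw [ho z hz h] at h2
      have h3 : -1 ≤ (q - 2) * u z := by linarith
      have h4 : ∀ x ∈ S, u x ≤ u (τ x) := by
        intro x hx
        by_cases hx' : ev x
        · rw [he x hx hx']
          linarith [hneg x hx]
        · rw [ho x hx hx']
          have h5 : (q - 2) * u z ≤ (q - 2) * u x :=
            mul_le_mul_of_nonneg_left (hzmin x hx) (by linarith)
          linarith
      obtain ⟨x, hx, hx'⟩ := hE
      have h5 : ∑ x ∈ S, u x < ∑ x ∈ S, u (τ x) := by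
        refine sum_lt_sum h4 ⟨x, hx, ?_⟩
        rw [he x hx hx']
        linarith [hneg x hx]
      rw [hsum] at h5
      exact lt_irrefl _ h5
    have hz2 : u z ≤ -(2 * s) := by
      have h2 := hzmin _ (hmemτ' z hz)
      rw [he' z hz hze] at h2
      linarith
    exact hcrit z hz (le_antisymm hz2 hz1)

/-- the map `x ↦ x / 2` for even `x`, `x ↦ (q x + d) / 2` for odd `x` -/
def T (q d x : ℤ) : ℤ := if x % 2 = 0 then x / 2 else (q * x + d) / 2

/-- A finite union of cycles of `T q d`, without `0`, with at least two elements. -/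
structure Good (q d : ℤ) (S : Finset ℤ) : Prop where
  qodd : q % 2 = 1
  qthree : 3 ≤ q
  odd : d % 2 = 1
  two : 2 ≤ S.card
  inv : S.image (T q d) = S
  zero : (0 : ℤ) ∉ S

variable {q d d' : ℤ} {S S' : Finset ℤ}

theorem d_ne (hS : Good q d S) : (d : ℝ) ≠ 0 := by
  have : d ≠ 0 := by
    rintro rfl
    have := hS.odd
    norm_num at this
  exact_mod_cast this

theorem T_even (_hS : Good q d S) {x : ℤ} (hx : x % 2 = 0) :
    ((T q d x : ℤ) : ℝ) / d = ((x : ℝ) / d) / 2 := by
  have h2 : T q d x * 2 = x := by unfold T; rw [if_pos hx]; omega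
  have h3 : ((T q d x : ℤ) : ℝ) * 2 = x := by exact_mod_cast h2
  rw [← h3]; ring

theorem T_odd (hS : Good q d S) {x : ℤ} (hx : ¬ x % 2 = 0) :
    ((T q d x : ℤ) : ℝ) / d = (q * ((x : ℝ) / d) + 1) / 2 := by
  have h1 : (q * x + d) % 2 = 0 := by
    rw [Int.add_emod, Int.mul_emod, hS.qodd, hS.odd, show x % 2 = 1 by omega]
    rfl
  have h2 : T q d x * 2 = q * x + d := by unfold T; rw [if_neg hx]; omega
  have h3 : ((T q d x : ℤ) : ℝ) * 2 = q * x + d := by exact_mod_cast h2
  have hd := d_ne hS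
  field_simp
  linarith

theorem mem_T (hS : Good q d S) {x : ℤ} (hx : x ∈ S) : T q d x ∈ S := by
  have := mem_image_of_mem (T q d) hx
  rwa [hS.inv] at this

theorem sur_T (hS : Good q d S) {y : ℤ} (hy : y ∈ S) : ∃ x ∈ S, T q d x = y := by
  rw [← hS.inv] at hy
  exact mem_image.1 hy

theorem ne_T (hS : Good q d S) : S.Nonempty := by
  rw [← card_pos]
  have := hS.two
  omega

theorem u_inj (hS : Good q d S) {x y : ℤ} (h : (x : ℝ) / d = (y : ℝ) / d) : x = y := by
  have h1 := (div_left_inj' (d_ne hS)).1 h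
  exact_mod_cast h1

/-- there are even elements -/
theorem exists_even (hS : Good q d S) : ∃ x ∈ S, x % 2 = 0 := by
  by_contra hcon
  push Not at hcon
  obtain ⟨w, hw, hwmax⟩ := exists_max_image S (fun x : ℤ => (x : ℝ) / d) (ne_T hS)
  obtain ⟨z, hz, hzmin⟩ := exists_min_image S (fun x : ℤ => (x : ℝ) / d) (ne_T hS)
  have h1 := hwmax _ (mem_T hS hw)
  have h2 := hzmin _ (mem_T hS hz)
  rw [T_odd hS (hcon w hw)] at h1
  rw [T_odd hS (hcon z hz)] at h2
  have hq : (3 : ℝ) ≤ q := by exact_mod_cast hS.qthree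
  have h3 : ((q : ℝ) - 2) * ((w : ℝ) / d) ≤ ((q : ℝ) - 2) * ((z : ℝ) / d) := by linarith
  have h4 : (w : ℝ) / d ≤ (z : ℝ) / d := le_of_mul_le_mul_left h3 (by linarith)
  have h5 : ∀ x ∈ S, x = w := fun x hx =>
    u_inj hS (le_antisymm (hwmax x hx) (h4.trans (hzmin x hx)))
  have h6 : S.card ≤ 1 := card_le_one.2 fun a ha b hb => (h5 a ha).trans (h5 b hb).symm
  have := hS.two
  omega

/-- there are odd elements -/
theorem exists_odd (hS : Good q d S) : ∃ x ∈ S, ¬ x % 2 = 0 := by
  by_contra hcon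
  push Not at hcon
  obtain ⟨w, hw, hwmax⟩ := exists_max_image S (fun x : ℤ => (x : ℝ) / d) (ne_T hS)
  obtain ⟨z, hz, hzmin⟩ := exists_min_image S (fun x : ℤ => (x : ℝ) / d) (ne_T hS)
  obtain ⟨x, hx, hxw⟩ := sur_T hS hw
  obtain ⟨y, hy, hyz⟩ := sur_T hS hz
  have h1 := T_even hS (hcon x hx)
  have h2 := T_even hS (hcon y hy)
  rw [hxw] at h1
  rw [hyz] at h2
  have h3 := hwmax x hx
  have h4 := hzmin y hy
  have h5 := hwmax z hz
  have h6 : (w : ℝ) / d = ((0 : ℤ) : ℝ) / d := by
    push_cast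
    rw [zero_div]
    linarith
  have h7 := u_inj hS h6
  rw [h7] at hw
  exact hS.zero hw

/-- the odd elements -/
def od (S : Finset ℤ) : Finset ℤ := S.filter fun x => ¬ x % 2 = 0

/-- the even elements -/
def ev (S : Finset ℤ) : Finset ℤ := S.filter fun x => x % 2 = 0

theorem mem_od {x : ℤ} : x ∈ od S ↔ x ∈ S ∧ ¬ x % 2 = 0 := by unfold od; rw [mem_filter]

theorem mem_ev {x : ℤ} : x ∈ ev S ↔ x ∈ S ∧ x % 2 = 0 := by unfold ev; rw [mem_filter]

theorem card_eq (S : Finset ℤ) : (ev S).card + (od S).card = S.card :=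
  card_filter_add_card_filter_not (s := S) (fun x => x % 2 = 0)

theorem prod_eq (hS : Good q d S) :
    ∏ x ∈ od S, |(q : ℝ) * x + d| = 2 ^ S.card * ∏ x ∈ od S, |(x : ℝ)| := by
  have hinj : Set.InjOn (T q d) S := card_image_iff.1 (by rw [hS.inv])
  have h := prod_image (f := fun x : ℤ => |(x : ℝ)|) hinj
  rw [hS.inv] at h
  have hsp : ∀ F : ℤ → ℝ, ∏ x ∈ S, F x = (∏ x ∈ ev S, F x) * ∏ x ∈ od S, F x := fun F =>
    (prod_filter_mul_prod_filter_not S (fun x => x % 2 = 0) F).symm
  rw [hsp, hsp] at h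
  have hd := d_ne hS
  have h1 : ∏ x ∈ od S, |((T q d x : ℤ) : ℝ)| =
      (∏ x ∈ od S, |(q : ℝ) * x + d|) * (1 / 2) ^ (od S).card := by
    rw [← prod_const, ← prod_mul_distrib]
    refine prod_congr rfl fun x hx => ?_
    have h2 := T_odd hS (mem_od.1 hx).2
    rw [div_eq_iff hd] at h2
    rw [h2, show (q * ((x : ℝ) / d) + 1) / 2 * d = (q * x + d) * (1 / 2) by field_simp, abs_mul,
      abs_of_pos (by norm_num : (0 : ℝ) < 1 / 2)]
  have h2 : ∏ x ∈ ev S, |((T q d x : ℤ) : ℝ)| =
      (∏ x ∈ ev S, |(x : ℝ)|) * (1 / 2) ^ (ev S).card := by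
    rw [← prod_const, ← prod_mul_distrib]
    refine prod_congr rfl fun x hx => ?_
    have h2 := T_even hS (mem_ev.1 hx).2
    rw [div_eq_iff hd] at h2
    rw [h2, show ((x : ℝ) / d) / 2 * d = x * (1 / 2) by field_simp, abs_mul,
      abs_of_pos (by norm_num : (0 : ℝ) < 1 / 2)]
  have h3 : ∏ x ∈ ev S, |(x : ℝ)| ≠ 0 := by
    rw [prod_ne_zero_iff]
    intro x hx h0
    rw [abs_eq_zero] at h0
    have h4 : x = 0 := by exact_mod_cast h0
    rw [h4] at hx
    exact hS.zero (mem_ev.1 hx).1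
  rw [h1, h2] at h
  have h5 : (∏ x ∈ od S, |(q : ℝ) * x + d|) * (1 / 2) ^ S.card * (∏ x ∈ ev S, |(x : ℝ)|) =
      (∏ x ∈ od S, |(x : ℝ)|) * (∏ x ∈ ev S, |(x : ℝ)|) := by
    rw [mul_comm (∏ x ∈ od S, |(x : ℝ)|), h, ← card_eq, pow_add]; ring
  have h6 := mul_right_cancel₀ h3 h5
  rw [← h6, mul_comm, mul_assoc, ← mul_pow]
  norm_num

theorem od_pos (hS : Good q d S) : (od S).Nonempty := by
  obtain ⟨x, hx, hx'⟩ := exists_odd hS
  exact ⟨x, mem_od.2 ⟨hx, hx'⟩⟩

theorem od_prod_pos (S : Finset ℤ) : 0 < ∏ x ∈ od S, |(x : ℝ)| := by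
  refine prod_pos fun x hx => abs_pos.2 ?_
  have h := (mem_od.1 hx).2
  have : x ≠ 0 := by rintro rfl; exact h rfl
  exact_mod_cast this

theorem card_lt (hS : Good q d S) (h : ∀ x ∈ S, x % 2 = 1 → |q * x + d| < 4 * |x|) :
    S.card < 2 * (od S).card := by
  have h1 : ∏ x ∈ od S, |(q : ℝ) * x + d| < ∏ x ∈ od S, (4 * |(x : ℝ)|) := by
    refine prod_lt_prod_of_nonempty (fun x hx => ?_) (fun x hx => ?_) (od_pos hS)
    · rw [abs_pos]
      intro h0
      have h2 : q * x + d = 0 := by exact_mod_cast h0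
      -- then the image of `x` is `0`
      have h3 := mem_T hS (mem_od.1 hx).1
      unfold T at h3
      rw [if_neg (mem_od.1 hx).2, h2] at h3
      exact hS.zero h3
    · have h2 := h x (mem_od.1 hx).1 (by have := (mem_od.1 hx).2; omega)
      exact_mod_cast h2
  rw [prod_eq hS, prod_mul_distrib, prod_const] at h1
  have h2 := lt_of_mul_lt_mul_right h1 (od_prod_pos S).le
  rw [show (4 : ℝ) = 2 ^ 2 by norm_num, ← pow_mul] at h2
  exact (pow_lt_pow_iff_right₀ (by norm_num : (1 : ℝ) < 2)).1 h2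

theorem lt_card (hS : Good q d S) (h : ∀ x ∈ S, x % 2 = 1 → 4 * |x| < |q * x + d|) :
    2 * (od S).card < S.card := by
  have h1 : ∏ x ∈ od S, (4 * |(x : ℝ)|) < ∏ x ∈ od S, |(q : ℝ) * x + d| := by
    refine prod_lt_prod_of_nonempty (fun x hx => ?_) (fun x hx => ?_) (od_pos hS)
    · have h2 : x ≠ 0 := by rintro rfl; exact (mem_od.1 hx).2 rfl
      have h3 : (0 : ℝ) < |(x : ℝ)| := abs_pos.2 (by exact_mod_cast h2)
      linarith
    · have h2 := h x (mem_od.1 hx).1 (by have := (mem_od.1 hx).2; omega)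
      exact_mod_cast h2
  rw [prod_eq hS, prod_mul_distrib, prod_const] at h1
  have h2 := lt_of_mul_lt_mul_right h1 (od_prod_pos S).le
  rw [show (4 : ℝ) = 2 ^ 2 by norm_num, ← pow_mul] at h2
  exact (pow_lt_pow_iff_right₀ (by norm_num : (1 : ℝ) < 2)).1 h2

end Pool.Agent.U394.AR
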