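import Mathlib
import Pool.Agent.U394.AR.Core

set_option autoImplicit false

/-! Affine rigidity of unions of cycles: the main theorems. -/

namespace Pool.Agent.U394.AR

open Finset

variable {q d d' : ℤ} {S S' : Finset ℤ}

/-- the case where the affine map preserves the parities -/
theorem main_parity (hS : Good q d S) (hS' : Good q d' S') (α β : ℝ) (g : ℤ → ℤ)
    (himg : S.image g = S') (hg : ∀ x ∈ S, ((g x : ℤ) : ℝ) = α * x + β) (hα : α ≠ 0)
    (hpar : ∀ x ∈ S, (g x - x) % 2 = 0) : α = d' / d ∧ β = 0 := by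
  have hd := d_ne hS
  have hd' := d_ne hS'
  have hinj : ∀ x ∈ S, ∀ y ∈ S, g x = g y → x = y := by
    intro x hx y hy e
    have h1 : ((g x : ℤ) : ℝ) = g y := by rw [e]
    rw [hg x hx, hg y hy] at h1
    have h2 : α * ((x : ℝ) - y) = 0 := by linarith
    rcases mul_eq_zero.1 h2 with h3 | h3
    · exact absurd h3 hα
    · have h4 : (x : ℝ) = y := by linarith
      exact_mod_cast h4
  have hgm : ∀ x ∈ S, g x ∈ S' := fun x hx => by
    rw [← himg]; exact mem_image_of_mem g hx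
  have hsur : ∀ y ∈ S', ∃ x ∈ S, g x = y := fun y hy => by
    rw [← himg] at hy; exact mem_image.1 hy
  -- the conjugate permutation
  have hτ : ∀ x ∈ S, ∃ z ∈ S, g z = T q d' (g x) := fun x hx => hsur _ (mem_T hS' (hgm x hx))
  choose! τ hτ1 hτ2 using hτ
  have hτimg : S.image τ = S := by
    ext y
    rw [mem_image]
    constructor
    · rintro ⟨x, hx, rfl⟩
      exact hτ1 x hx
    · intro hy
      obtain ⟨v, hv, hvy⟩ := sur_T hS' (hgm y hy)
      obtain ⟨x, hx, rfl⟩ := hsur v hv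
      exact ⟨x, hx, hinj _ (hτ1 x hx) _ hy (by rw [hτ2 x hx, hvy])⟩
  set a : ℝ := α * d / d' with ha
  set b : ℝ := β / d' with hb
  have ha0 : a ≠ 0 := div_ne_zero (mul_ne_zero hα hd) hd'
  have hval : ∀ x ∈ S, ((g x : ℤ) : ℝ) / d' = a * ((x : ℝ) / d) + b := by
    intro x hx
    rw [hg x hx, ha, hb]
    field_simp
  have hvτ : ∀ x ∈ S, ((τ x : ℤ) : ℝ) / d = (((T q d' (g x) : ℤ) : ℝ) / d' - b) / a := by
    intro x hx
    rw [eq_div_iff ha0, ← hτ2 x hx, hval _ (hτ1 x hx)]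
    ring
  have key := extremal S (fun x => x % 2 = 0) (fun x => (x : ℝ) / d) (T q d) τ q a b
    (by have : (3 : ℝ) ≤ q := by exact_mod_cast hS.qthree
        linarith) hS.inv hτimg
    (fun x _ hx => T_even hS hx) (fun x _ hx => T_odd hS hx)
    (fun x hx hx' => by
      have h1 : g x % 2 = 0 := by have := hpar x hx; omega
      show ((τ x : ℤ) : ℝ) / d = ((x : ℝ) / d) / 2 - b / (2 * a)
      rw [hvτ x hx, T_even hS' h1, hval x hx]
      field_simp
      ring)
    (fun x hx hx' => by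
      have h1 : ¬ g x % 2 = 0 := by
        have h2 := hpar x hx
        have h3 : ¬ x % 2 = 0 := hx'
        omega
      show ((τ x : ℤ) : ℝ) / d = (q * ((x : ℝ) / d) + 1) / 2 +
        (((q - 2) * b + 1) / (2 * a) - 1 / 2)
      rw [hvτ x hx, T_odd hS' h1, hval x hx]
      field_simp
      ring)
    (fun x hx => by
      show (x : ℝ) / d ≠ 0
      have h1 : x ≠ 0 := by rintro rfl; exact hS.zero hx
      exact div_ne_zero (by exact_mod_cast h1) hd)
    (fun x hx => by
      show a * ((x : ℝ) / d) + b ≠ 0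
      rw [← hval x hx]
      have h1 : g x ≠ 0 := by intro h; exact hS'.zero (h ▸ hgm x hx)
      exact div_ne_zero (by exact_mod_cast h1) hd')
    ha0 (exists_even hS) (exists_odd hS)
  obtain ⟨k1, k2⟩ := key
  constructor
  · rw [ha, div_eq_one_iff_eq hd'] at k1
    rw [eq_div_iff hd, k1]
  · rw [hb, div_eq_zero_iff] at k2
    rcases k2 with h | h
    · exact h
    · exact absurd h hd'

/-- the integer valued form of the affine map -/
theorem exists_g (α β : ℝ)
    (h : (fun x : ℤ => α * x + β) '' (S : Set ℤ) = (fun y : ℤ => (y : ℝ)) '' (S' : Set ℤ)) :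
    ∃ g : ℤ → ℤ, S.image g = S' ∧ ∀ x ∈ S, ((g x : ℤ) : ℝ) = α * x + β := by
  have hg : ∀ x ∈ S, ∃ y ∈ S', (y : ℝ) = α * x + β := by
    intro x hx
    have h1 : α * (x : ℝ) + β ∈ (fun y : ℤ => (y : ℝ)) '' (S' : Set ℤ) := by
      rw [← h]; exact ⟨x, hx, rfl⟩
    obtain ⟨y, hy, e⟩ := h1
    exact ⟨y, hy, e⟩
  choose! g hg1 hg2 using hg
  refine ⟨g, ?_, hg2⟩
  ext y
  rw [mem_image]
  constructor
  · rintro ⟨x, hx, rfl⟩
    exact hg1 x hx
  · intro hy
    have h1 : (y : ℝ) ∈ (fun x : ℤ => α * x + β) '' (S : Set ℤ) := by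
      rw [h]; exact ⟨y, hy, rfl⟩
    obtain ⟨x, hx, e⟩ := h1
    refine ⟨x, hx, ?_⟩
    have h2 : ((g x : ℤ) : ℝ) = (y : ℝ) := by rw [hg2 x hx]; exact e
    exact_mod_cast h2

theorem alpha_ne (hS' : 2 ≤ S'.card) (α β : ℝ) (g : ℤ → ℤ) (himg : S.image g = S')
    (hg : ∀ x ∈ S, ((g x : ℤ) : ℝ) = α * x + β) : α ≠ 0 := by
  rintro rfl
  have h1 : S'.card ≤ 1 := by
    rw [card_le_one]
    intro y hy z hz
    rw [← himg, mem_image] at hy hz
    obtain ⟨x, hx, rfl⟩ := hy
    obtain ⟨x', hx', rfl⟩ := hz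
    have h2 : ((g x : ℤ) : ℝ) = g x' := by rw [hg x hx, hg x' hx']; ring
    exact_mod_cast h2
  omega

/-- parities are preserved or exchanged -/
theorem dichotomy (hS : Good q d S) (hS' : Good q d' S') (α β : ℝ) (g : ℤ → ℤ)
    (himg : S.image g = S') (hg : ∀ x ∈ S, ((g x : ℤ) : ℝ) = α * x + β) :
    (∀ x ∈ S, (g x - x) % 2 = 0) ∨ ∀ x ∈ S, (g x - x) % 2 = 1 := by
  obtain ⟨x0, hx0, hx0'⟩ := exists_odd hS
  obtain ⟨x1, hx1, hx1'⟩ := exists_even hS
  have hND : ∀ x ∈ S, ∀ x' ∈ S, (g x0 - g x1) * (x - x') = (x0 - x1) * (g x - g x') := by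
    intro x hx x' hx'
    have h1 : (((g x0 - g x1) * (x - x') : ℤ) : ℝ) = (((x0 - x1) * (g x - g x') : ℤ) : ℝ) := by
      push_cast
      rw [hg x hx, hg x' hx', hg x0 hx0, hg x1 hx1]
      ring
    exact_mod_cast h1
  have hD : (x0 - x1) % 2 = 1 := by omega
  obtain ⟨y0, hy0, hy0'⟩ := exists_odd hS'
  obtain ⟨y1, hy1, hy1'⟩ := exists_even hS'
  rw [← himg, mem_image] at hy0 hy1
  obtain ⟨z0, hz0, rfl⟩ := hy0
  obtain ⟨z1, hz1, rfl⟩ := hy1
  have hN : (g x0 - g x1) % 2 = 1 := by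
    by_contra hN
    have h1 := hND z0 hz0 z1 hz1
    have h2 : ((g x0 - g x1) * (z0 - z1)) % 2 = 0 := by
      rw [Int.mul_emod, show (g x0 - g x1) % 2 = 0 by omega, zero_mul]; rfl
    rw [h1, Int.mul_emod, hD, one_mul, Int.emod_emod_of_dvd _ (dvd_refl 2)] at h2
    omega
  have hpar : ∀ x ∈ S, (g x - x) % 2 = (g x0 - x0) % 2 := by
    intro x hx
    have h1 := hND x hx x0 hx0
    have h2 : ((g x0 - g x1) * (x - x0)) % 2 = ((x0 - x1) * (g x - g x0)) % 2 := by rw [h1]
    rw [Int.mul_emod, hN, one_mul, Int.emod_emod_of_dvd _ (dvd_refl 2), Int.mul_emod (x0 - x1), hD,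
      one_mul, Int.emod_emod_of_dvd _ (dvd_refl 2)] at h2
    omega
  rcases Int.emod_two_eq_zero_or_one (g x0 - x0) with hc | hc
  · left
    intro x hx
    rw [hpar x hx, hc]
  · right
    intro x hx
    rw [hpar x hx, hc]

theorem swap_card (α β : ℝ) (g : ℤ → ℤ) (himg : S.image g = S')
    (hg : ∀ x ∈ S, ((g x : ℤ) : ℝ) = α * x + β) (hα : α ≠ 0)
    (hpar : ∀ x ∈ S, (g x - x) % 2 = 1) :
    S'.card = S.card ∧ (od S').card + (od S).card = S.card := by
  have hinj : Set.InjOn g S := by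
    intro x hx y hy e
    have h1 : ((g x : ℤ) : ℝ) = g y := by rw [e]
    rw [hg x hx, hg y hy] at h1
    have h2 : α * ((x : ℝ) - y) = 0 := by linarith
    rcases mul_eq_zero.1 h2 with h3 | h3
    · exact absurd h3 hα
    · have h4 : (x : ℝ) = y := by linarith
      exact_mod_cast h4
  have ho : od S' = (ev S).image g := by
    rw [← himg]
    unfold od ev
    rw [filter_image]
    congr 1
    refine filter_congr fun x hx => ?_
    have := hpar x hx
    constructor <;> intro _ <;> omega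
  have hinje : Set.InjOn g (ev S : Finset ℤ) := hinj.mono (by
    intro x hx; exact (mem_ev.1 hx).1)
  have hco : (od S').card = (ev S).card := by rw [ho]; exact card_image_of_injOn hinje
  refine ⟨?_, ?_⟩
  · rw [← himg]; exact card_image_of_injOn hinj
  · rw [hco]; exact card_eq S

/-- the general theorem -/
theorem main (hS : Good q d S) (hS' : Good q d' S') (α β : ℝ)
    (h : (fun x : ℤ => α * x + β) '' (S : Set ℤ) = (fun y : ℤ => (y : ℝ)) '' (S' : Set ℤ))
    (hsize : ((∀ x ∈ S, x % 2 = 1 → |q * x + d| < 4 * |x|) ∧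
        ∀ x ∈ S', x % 2 = 1 → |q * x + d'| < 4 * |x|) ∨
      ((∀ x ∈ S, x % 2 = 1 → 4 * |x| < |q * x + d|) ∧
        ∀ x ∈ S', x % 2 = 1 → 4 * |x| < |q * x + d'|)) :
    α = d' / d ∧ β = 0 := by
  obtain ⟨g, himg, hg⟩ := exists_g α β h
  have hα := alpha_ne hS'.two α β g himg hg
  rcases dichotomy hS hS' α β g himg hg with hp | hp
  · exact main_parity hS hS' α β g himg hg hα hp
  · exfalso
    obtain ⟨h1, h2⟩ := swap_card α β g himg hg hα hp
    rcases hsize with ⟨h3, h4⟩ | ⟨h3, h4⟩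
    · have h5 := card_lt hS h3
      have h6 := card_lt hS' h4
      omega
    · have h5 := lt_card hS h3
      have h6 := lt_card hS' h4
      omega

end Pool.Agent.U394.AR
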